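import Mathlib

/-!
# L/Rank2  (S-M) : subgroups of rank two   [only Mathlib]

`R` is a free ℤ-module of rank 2 (submodule of a free module of finite rank; `AddSubgroup.toIntSubmodule`
or directly the instances on the coerced type).  `exists_basis_rank_two`: take a basis
(`Module.finBasis`/`finBasisOfFinrankEq`).  `span_of_rank_two`: three elements `x, a, b` of `R` are
linearly dependent over ℤ (rank 2): `N x + m a + n b = 0` nontrivially, and `N ≠ 0` by `hab`.
-/

namespace MP_14a437_ag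

private theorem basis_of_rank {Λ : Type*} [AddCommGroup Λ] [Module.Free ℤ Λ] [Module.Finite ℤ Λ]
    (R : AddSubgroup Λ) (hR : Module.finrank ℤ R = 2) : Nonempty (Module.Basis (Fin 2) ℤ R) := by
  let e : R ≃ₗ[ℤ] (AddSubgroup.toIntSubmodule R : Submodule ℤ Λ) :=
    AddEquiv.toIntLinearEquiv
      { toFun := fun x => ⟨x.1, x.2⟩
        invFun := fun x => ⟨x.1, x.2⟩
        left_inv := fun _ => rfl
        right_inv := fun _ => rfl
        map_add' := fun _ _ => rfl }
  obtain ⟨n, bN⟩ := Submodule.basisOfPid (Module.Free.chooseBasis ℤ Λ) (AddSubgroup.toIntSubmodule R)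
  have hn : n = 2 := by
    have h1 := Module.finrank_eq_card_basis bN
    rw [Fintype.card_fin, ← LinearEquiv.finrank_eq e, hR] at h1
    exact h1.symm
  subst hn
  exact ⟨bN.map e.symm⟩

/-- In a subgroup of rank two, two independent elements span up to finite index. -/
theorem span_of_rank_two {Λ : Type*} [AddCommGroup Λ] [Module.Free ℤ Λ] [Module.Finite ℤ Λ]
    (R : AddSubgroup Λ) (hR : Module.finrank ℤ R = 2) {a b : Λ} (ha : a ∈ R) (hb : b ∈ R)
    (hab : ∀ m n : ℤ, m • a + n • b = 0 → m = 0 ∧ n = 0) :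
    ∀ x ∈ R, ∃ N m n : ℤ, N ≠ 0 ∧ N • x = m • a + n • b := by
  intro x hx
  obtain ⟨B⟩ := basis_of_rank R hR
  haveI : Module.Finite ℤ R := Module.Finite.of_basis B
  have hdep : ¬ LinearIndependent ℤ (![⟨x, hx⟩, ⟨a, ha⟩, ⟨b, hb⟩] : Fin 3 → R) := by
    intro h
    have h1 := h.fintype_card_le_finrank
    rw [Fintype.card_fin, hR] at h1
    omega
  obtain ⟨g, hg, i, hi⟩ := Fintype.not_linearIndependent_iff.1 hdep
  have hg' : g 0 • x + g 1 • a + g 2 • b = 0 := by
    have h2 := congrArg (Subtype.val : R → Λ) hg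
    simpa [Fin.sum_univ_three] using h2
  refine ⟨g 0, -g 1, -g 2, ?_, ?_⟩
  · intro h0
    rw [h0, zero_smul, zero_add] at hg'
    obtain ⟨h1, h2⟩ := hab _ _ hg'
    fin_cases i
    · exact hi h0
    · exact hi h1
    · exact hi h2
  · rw [neg_smul, neg_smul, ← sub_eq_zero, ← hg']
    abel

theorem exists_basis_rank_two {Λ : Type*} [AddCommGroup Λ] [Module.Free ℤ Λ] [Module.Finite ℤ Λ]
    (R : AddSubgroup Λ) (hR : Module.finrank ℤ R = 2) :
    ∃ a ∈ R, ∃ b ∈ R, ∀ m n : ℤ, m • a + n • b = 0 → m = 0 ∧ n = 0 := by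
  obtain ⟨B⟩ := basis_of_rank R hR
  refine ⟨(B 0 : Λ), (B 0).2, (B 1 : Λ), (B 1).2, fun m n h => ?_⟩
  have h1 : m • B 0 + n • B 1 = 0 := Subtype.ext (by simpa using h)
  have h2 := congrArg B.repr h1
  simp only [map_add, map_smul, map_zero, Module.Basis.repr_self] at h2
  have h3 := DFunLike.congr_fun h2 0
  have h4 := DFunLike.congr_fun h2 1
  simp at h3 h4
  exact ⟨h3, h4⟩

end MP_14a437_ag
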