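import Mathlib

/-!
# L/Psd1  (M) : integral quadratic forms with nonpositive off-diagonal entries   [only Mathlib]

`G : I → I → ℤ` symmetric, `G i j ≤ 0` for `i ≠ j`, positive semidefinite on finitely supported
integer vectors.  `bil G x y = ∑ x i y j G i j`.

`psd_radical`: `bil x x = 0` implies `bil x y = 0`: for all `n : ℤ`,
`0 ≤ bil (n x + y) (n x + y) = 2 n bil x y + bil y y`.
`abs_radical`: let `x = p - q`, `p = x⁺`, `q = x⁻` (disjoint supports).  `0 = bil x p = bil p p - bil q p`
and `bil q p ≤ 0` (only pairs `i ≠ j` contribute), so `bil p p ≤ 0`, `bil p p = 0`, `p` is radical by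
`psd_radical`; then `q = p - x` is radical and `|x| = p + q`.
`radical_rank_le_one`: let `x` be radical.  If `i ∉ supp x`, `0 = bil |x| e_i = ∑ |x j| G j i` is a sum
of nonpositive terms, so `G j i = 0` for all `j ∈ supp x`.  By `hconn` `supp x` is empty or everything.
If `x = 0` take `m = 1, n = 0`.  Otherwise take `i ∈ supp x`; `z = y i • x - x i • y` is radical and
`z i = 0`, so `supp z` is not everything, so `z = 0`; take `m = y i`, `n = - x i ≠ 0`.
-/

namespace MP_14a437_ag

/-- the bilinear form with Gram matrix `G` -/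
noncomputable def bil {I : Type*} (G : I → I → ℤ) (x y : I →₀ ℤ) : ℤ :=
  x.sum fun i a => y.sum fun j b => a * b * G i j

theorem bil_add_left {I : Type*} (G : I → I → ℤ) (x x' y : I →₀ ℤ) :
    bil G (x + x') y = bil G x y + bil G x' y := by
  classical
  unfold bil
  rw [Finsupp.sum_add_index']
  · intro i
    simp [Finsupp.sum]
  · intro i a b
    simp only [add_mul, Finsupp.sum_add]

theorem bil_smul_left {I : Type*} (G : I → I → ℤ) (n : ℤ) (x y : I →₀ ℤ) :
    bil G (n • x) y = n * bil G x y := by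
  classical
  unfold bil
  rw [Finsupp.sum_smul_index' (fun i => by simp [Finsupp.sum])]
  simp only [Finsupp.sum, Finset.mul_sum, smul_eq_mul]
  refine Finset.sum_congr rfl fun i _ => Finset.sum_congr rfl fun j _ => ?_
  ring

theorem bil_symm {I : Type*} {G : I → I → ℤ} (hsymm : ∀ i j, G i j = G j i) (x y : I →₀ ℤ) :
    bil G x y = bil G y x := by
  unfold bil
  simp only [Finsupp.sum]
  rw [Finset.sum_comm]
  refine Finset.sum_congr rfl fun i _ => Finset.sum_congr rfl fun j _ => ?_
  rw [hsymm j i]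
  ring

private theorem bil_add_right {I : Type*} {G : I → I → ℤ} (hsymm : ∀ i j, G i j = G j i)
    (x y y' : I →₀ ℤ) : bil G x (y + y') = bil G x y + bil G x y' := by
  rw [bil_symm hsymm, bil_add_left, bil_symm hsymm y, bil_symm hsymm y']

private theorem bil_smul_right {I : Type*} {G : I → I → ℤ} (hsymm : ∀ i j, G i j = G j i)
    (n : ℤ) (x y : I →₀ ℤ) : bil G x (n • y) = n * bil G x y := by
  rw [bil_symm hsymm, bil_smul_left, bil_symm hsymm y]

private theorem bil_neg_left {I : Type*} (G : I → I → ℤ) (x y : I →₀ ℤ) :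
    bil G (-x) y = - bil G x y := by
  have h := bil_smul_left G (-1) x y
  rw [neg_one_smul] at h
  rw [h]
  ring

private theorem bil_sub_left {I : Type*} (G : I → I → ℤ) (x x' y : I →₀ ℤ) :
    bil G (x - x') y = bil G x y - bil G x' y := by
  rw [sub_eq_add_neg, bil_add_left, bil_neg_left]
  ring

private theorem bil_sub_right {I : Type*} {G : I → I → ℤ} (hsymm : ∀ i j, G i j = G j i)
    (x y y' : I →₀ ℤ) : bil G x (y - y') = bil G x y - bil G x y' := by
  rw [bil_symm hsymm, bil_sub_left, bil_symm hsymm y, bil_symm hsymm y']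

theorem psd_radical {I : Type*} {G : I → I → ℤ} (hsymm : ∀ i j, G i j = G j i)
    (hpsd : ∀ x : I →₀ ℤ, 0 ≤ bil G x x) {x : I →₀ ℤ} (hx : bil G x x = 0) (y : I →₀ ℤ) :
    bil G x y = 0 := by
  by_contra hb
  have key : ∀ n : ℤ, 0 ≤ 2 * n * bil G x y + bil G y y := by
    intro n
    have h := hpsd (n • x + y)
    rw [bil_add_left, bil_add_right hsymm, bil_add_right hsymm, bil_smul_left, bil_smul_left,
      bil_smul_right hsymm, bil_smul_right hsymm, hx, bil_symm hsymm y x] at h
    linarith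
  have hc := hpsd y
  have h1 := key (-((bil G y y + 1) * bil G x y))
  have h2 : 1 ≤ bil G x y * bil G x y := by
    have h3 : 0 < bil G x y * bil G x y := mul_self_pos.2 hb
    omega
  nlinarith

private theorem disj_nonpos {I : Type*} {G : I → I → ℤ} (hneg : ∀ i j, i ≠ j → G i j ≤ 0)
    {p q : I →₀ ℤ} (hp : ∀ i, 0 ≤ p i) (hq : ∀ i, 0 ≤ q i) (hpq : ∀ i, q i * p i = 0) :
    bil G q p ≤ 0 := by
  unfold bil
  refine Finset.sum_nonpos fun i _ => Finset.sum_nonpos fun j _ => ?_
  change q i * p j * G i j ≤ 0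
  by_cases h : i = j
  · subst h
    rw [hpq, zero_mul]
  · exact mul_nonpos_of_nonneg_of_nonpos (mul_nonneg (hq i) (hp j)) (hneg i j h)

theorem abs_radical {I : Type*} {G : I → I → ℤ} (hsymm : ∀ i j, G i j = G j i)
    (hneg : ∀ i j, i ≠ j → G i j ≤ 0) (hpsd : ∀ x : I →₀ ℤ, 0 ≤ bil G x x) {x : I →₀ ℤ}
    (hx : bil G x x = 0) :
    bil G (x.mapRange (fun a => |a|) abs_zero) (x.mapRange (fun a => |a|) abs_zero) = 0 := by
  obtain ⟨p, hp⟩ : ∃ p : I →₀ ℤ, p = x.mapRange (fun a => max a 0) (by simp) := ⟨_, rfl⟩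
  obtain ⟨q, hq⟩ : ∃ q : I →₀ ℤ, q = x.mapRange (fun a => max (-a) 0) (by simp) := ⟨_, rfl⟩
  have hpi : ∀ i, p i = max (x i) 0 := fun i => by rw [hp]; simp
  have hqi : ∀ i, q i = max (-x i) 0 := fun i => by rw [hq]; simp
  have hxpq : x = p - q := by
    ext i
    rw [Finsupp.sub_apply, hpi, hqi]
    rcases le_total 0 (x i) with h | h
    · rw [max_eq_left h, max_eq_right (by linarith)]
      ring
    · rw [max_eq_right h, max_eq_left (by linarith)]
      ring
  have habs : x.mapRange (fun a => |a|) abs_zero = p + q := by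
    ext i
    rw [Finsupp.add_apply, hpi, hqi, Finsupp.mapRange_apply]
    rcases le_total 0 (x i) with h | h
    · rw [max_eq_left h, max_eq_right (by linarith), abs_of_nonneg h]
      ring
    · rw [max_eq_right h, max_eq_left (by linarith), abs_of_nonpos h]
      ring
  have hqp : bil G q p ≤ 0 := by
    refine disj_nonpos hneg (fun i => ?_) (fun i => ?_) (fun i => ?_)
    · rw [hpi]; exact le_max_right _ _
    · rw [hqi]; exact le_max_right _ _
    · rw [hpi, hqi]
      rcases le_total 0 (x i) with h | h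
      · rw [max_eq_right (by linarith : -x i ≤ 0), zero_mul]
      · rw [max_eq_right h, mul_zero]
  have hxp : bil G x p = 0 := psd_radical hsymm hpsd hx p
  have hpp : bil G p p = 0 := by
    have h1 : bil G x p = bil G p p - bil G q p := by
      conv_lhs => rw [hxpq]
      exact bil_sub_left G p q p
    have h2 := hpsd p
    linarith
  have hqq : bil G q q = 0 := by
    have h0 : q = p - x := by
      rw [hxpq]
      abel
    rw [h0, bil_sub_left, bil_sub_right hsymm, bil_sub_right hsymm, hpp, hx, hxp,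
      bil_symm hsymm p x, hxp]
    ring
  rw [habs, bil_add_left, bil_add_right hsymm, bil_add_right hsymm, hpp, hqq,
    psd_radical hsymm hpsd hpp q, psd_radical hsymm hpsd hqq p]
  ring

private theorem supp_radical {I : Type*} {G : I → I → ℤ} (hsymm : ∀ i j, G i j = G j i)
    (hneg : ∀ i j, i ≠ j → G i j ≤ 0) (hpsd : ∀ x : I →₀ ℤ, 0 ≤ bil G x x)
    (hconn : ∀ J : Set I, (∀ i ∈ J, ∀ j ∉ J, G i j = 0) → J = ∅ ∨ J = Set.univ)
    (x : I →₀ ℤ) (hx : bil G x x = 0) (i : I) (hi : x i = 0) : x = 0 := by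
  classical
  have habs := abs_radical hsymm hneg hpsd hx
  obtain ⟨z, hz⟩ : ∃ z : I →₀ ℤ, z = x.mapRange (fun a => |a|) abs_zero := ⟨_, rfl⟩
  rw [← hz] at habs
  have hzi : ∀ j, z j = |x j| := fun j => by rw [hz]; simp
  have hG : ∀ j ∈ {j | x j ≠ 0}, ∀ l ∉ {j | x j ≠ 0}, G j l = 0 := by
    intro j hj l hl
    have hl0 : x l = 0 := by
      by_contra h
      exact hl h
    have h1 : bil G z (Finsupp.single l 1) = 0 := psd_radical hsymm hpsd habs _
    unfold bil at h1
    have h2 : ∀ i' a, (Finsupp.single l (1 : ℤ)).sum (fun j b => a * b * G i' j) = a * G i' l := by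
      intro i' a
      rw [Finsupp.sum_single_index (by ring)]
      ring
    simp only [h2] at h1
    unfold Finsupp.sum at h1
    have h3 : ∀ i' ∈ z.support, z i' * G i' l ≤ 0 := by
      intro i' hi'
      have hne : i' ≠ l := by
        rintro rfl
        rw [Finsupp.mem_support_iff, hzi, hl0, abs_zero] at hi'
        exact hi' rfl
      exact mul_nonpos_of_nonneg_of_nonpos (by rw [hzi]; exact abs_nonneg _) (hneg i' l hne)
    have h4 := (Finset.sum_eq_zero_iff_of_nonpos h3).1 h1
    have hj' : x j ≠ 0 := hj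
    have hjs : j ∈ z.support := by
      rw [Finsupp.mem_support_iff, hzi]
      exact abs_ne_zero.2 hj'
    have h5 := h4 j hjs
    rcases mul_eq_zero.1 h5 with h6 | h6
    · rw [hzi] at h6
      exact absurd (abs_eq_zero.1 h6) hj'
    · exact h6
  rcases hconn {j | x j ≠ 0} hG with h | h
  · ext j
    by_contra hj
    have : j ∈ ({j | x j ≠ 0} : Set I) := hj
    rw [h] at this
    exact this
  · exfalso
    have : i ∈ ({j | x j ≠ 0} : Set I) := by
      rw [h]
      exact Set.mem_univ i
    exact this hi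

theorem radical_rank_le_one {I : Type*} {G : I → I → ℤ} (hsymm : ∀ i j, G i j = G j i)
    (hneg : ∀ i j, i ≠ j → G i j ≤ 0) (hpsd : ∀ x : I →₀ ℤ, 0 ≤ bil G x x)
    (hconn : ∀ J : Set I, (∀ i ∈ J, ∀ j ∉ J, G i j = 0) → J = ∅ ∨ J = Set.univ)
    (x y : I →₀ ℤ) (hx : bil G x x = 0) (hy : bil G y y = 0) :
    ∃ m n : ℤ, (m ≠ 0 ∨ n ≠ 0) ∧ m • x + n • y = 0 := by
  by_cases h0 : x = 0
  · exact ⟨1, 0, Or.inl one_ne_zero, by rw [h0]; simp⟩
  obtain ⟨i, hi⟩ : ∃ i, x i ≠ 0 := by
    by_contra hcon
    push Not at hcon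
    exact h0 (Finsupp.ext hcon)
  refine ⟨y i, -x i, Or.inr (neg_ne_zero.2 hi), ?_⟩
  apply supp_radical hsymm hneg hpsd hconn _ _ i
  · rw [Finsupp.add_apply, Finsupp.smul_apply, Finsupp.smul_apply, smul_eq_mul, smul_eq_mul]
    ring
  · rw [bil_add_left, bil_add_right hsymm, bil_add_right hsymm, bil_smul_left, bil_smul_left,
      bil_smul_left, bil_smul_left, bil_smul_right hsymm, bil_smul_right hsymm,
      bil_smul_right hsymm, bil_smul_right hsymm, hx, hy, psd_radical hsymm hpsd hx y,
      psd_radical hsymm hpsd hy x]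
    ring

end MP_14a437_ag
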