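import Pool.Agent.Work.MP_14a437_ag.L.Psd2

/-!
# L/FinRad  (M) : finitely many classes modulo the radical with bounded square   [only Mathlib]

`finite_mod_radical`: let `Λ/R` have basis dual functionals `M_1, …, M_r : Λ →+ ℤ` (vanishing on `R`,
and `M_j x = 0` for all `j` implies `x ∈ R`).  If `B x x ≤ N` then `|M_j x| ≤ √(K_j N)`: finitely many
values `(M_j x)_j`; choose one `x` for each value that occurs.
(`Λ/R` is free: the radical `R` is saturated.  One can avoid the quotient: let `b` be a basis of `Λ` and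
take the functionals `M_j x = B x (b j)` (integer valued, vanishing on `R`, and `M_j x = 0` for all `j`
implies `x ∈ R`).)
-/

namespace MP_14a437_ag

theorem finite_mod_radical {Λ : Type*} [AddCommGroup Λ] [Module.Free ℤ Λ] [Module.Finite ℤ Λ]
    (B : Λ →+ Λ →+ ℤ) (hsymm : ∀ x y, B x y = B y x) (hpsd : ∀ x, 0 ≤ B x x) (N : ℤ) :
    ∃ F : Finset Λ, ∀ x, B x x ≤ N → ∃ f ∈ F, ∀ y, B (x - f) y = 0 := by
  classical
  obtain ⟨ι, hfin, b, -⟩ : ∃ (ι : Type _) (_ : Fintype ι) (b : Module.Basis ι ℤ Λ), True :=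
    ⟨Module.Free.ChooseBasisIndex ℤ Λ, inferInstance, Module.Free.chooseBasis ℤ Λ, trivial⟩
  have hK : ∀ j : ι, ∃ K : ℝ, 0 ≤ K ∧ ∀ x, ((B x (b j) : ℤ) : ℝ) ^ 2 ≤ K * (B x x : ℝ) := by
    intro j
    obtain ⟨K, hK0, hK⟩ := psd_bound B hsymm hpsd
      ((Int.castAddHom ℝ).comp (B (b j))) (fun x hx => by
        change ((B (b j) x : ℤ) : ℝ) = 0
        rw [hsymm, hx]
        simp)
    refine ⟨K, hK0, fun x => ?_⟩
    have := hK x
    change ((B (b j) x : ℤ) : ℝ) ^ 2 ≤ K * (B x x : ℝ) at this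
    rwa [hsymm (b j) x] at this
  choose K hK0 hK using hK
  obtain ⟨S, hS⟩ : ∃ S : Set (ι → ℤ), S = {v | ∃ x, B x x ≤ N ∧ ∀ j, B x (b j) = v j} := ⟨_, rfl⟩
  have hSfin : S.Finite := by
    refine (Set.finite_Icc (fun j : ι => -⌈K j * |(N : ℝ)| + 1⌉) (fun j : ι => ⌈K j * |(N : ℝ)| + 1⌉)).subset
      ?_
    intro v hv
    rw [hS] at hv
    obtain ⟨x, hx, hxv⟩ := hv
    have hb : ∀ j, |((B x (b j) : ℤ) : ℝ)| ≤ K j * |(N : ℝ)| + 1 := by
      intro j
      have h1 := hK j x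
      have h2 : (B x x : ℝ) ≤ |(N : ℝ)| := by
        have h3 : (B x x : ℝ) ≤ (N : ℝ) := by exact_mod_cast hx
        exact h3.trans (le_abs_self _)
      have h4 : K j * (B x x : ℝ) ≤ K j * |(N : ℝ)| := mul_le_mul_of_nonneg_left h2 (hK0 j)
      have h5 : 0 ≤ K j * |(N : ℝ)| := mul_nonneg (hK0 j) (abs_nonneg _)
      have h6 : |((B x (b j) : ℤ) : ℝ)| ^ 2 ≤ (K j * |(N : ℝ)| + 1) ^ 2 := by
        rw [sq_abs]
        nlinarith
      exact (sq_le_sq₀ (abs_nonneg _) (by positivity)).1 h6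
    constructor
    · intro j
      have h7 := (abs_le.1 (hb j)).1
      rw [hxv] at h7
      have h8 := Int.le_ceil (K j * |(N : ℝ)| + 1)
      have h9 : ((-⌈K j * |(N : ℝ)| + 1⌉ : ℤ) : ℝ) ≤ (v j : ℝ) := by
        push_cast
        linarith
      exact_mod_cast h9
    · intro j
      have h7 := (abs_le.1 (hb j)).2
      rw [hxv] at h7
      have h8 := Int.le_ceil (K j * |(N : ℝ)| + 1)
      have h9 : (v j : ℝ) ≤ ((⌈K j * |(N : ℝ)| + 1⌉ : ℤ) : ℝ) := by linarith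
      exact_mod_cast h9
  have hrep : ∀ v : ι → ℤ, ∃ x : Λ, v ∈ S → ∀ j, B x (b j) = v j := by
    intro v
    by_cases hv : v ∈ S
    · have hv' := hv
      rw [hS] at hv'
      obtain ⟨x, -, hx⟩ := hv'
      exact ⟨x, fun _ => hx⟩
    · exact ⟨0, fun h => absurd h hv⟩
  choose r hr using hrep
  refine ⟨hSfin.toFinset.image r, fun x hx => ?_⟩
  have hmem : (fun j => B x (b j)) ∈ S := by
    rw [hS]
    exact ⟨x, hx, fun j => rfl⟩
  refine ⟨r (fun j => B x (b j)), Finset.mem_image_of_mem r (hSfin.mem_toFinset.2 hmem), ?_⟩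
  intro y
  rw [← b.sum_repr y, map_sum]
  refine Finset.sum_eq_zero fun j _ => ?_
  rw [map_zsmul, map_sub, AddMonoidHom.sub_apply, hr _ hmem j]
  simp

end MP_14a437_ag
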