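import Mathlib

/-!
# L/Psd2  (M) : functionals vanishing on the radical are bounded by a semidefinite form   [only Mathlib]

Step 1 (`M` integer valued).  Let `R` be the radical of `B`, it is saturated, so `Λ/R` is free of finite
rank, and `x ↦ B x` induces an injective map `Λ/R → Hom(Λ/R, ℤ)` between free modules of the same rank,
so its cokernel is finite (or: over ℚ, injective implies surjective): for every `M : Λ →+ ℤ` vanishing
on `R` there are `N ≠ 0` and `w` with `N * M x = B w x` for all `x`.  By Cauchy-Schwarz for the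
semidefinite form, `N² (M x)² = (B w x)² ≤ B w w * B x x`.
(Alternative for Step 1: work in `V = Fin n → ℚ` with the Gram matrix `A`; `A` symmetric, so the range
of `A` is the orthogonal complement of its kernel.)
Step 2 (`M` real valued).  `M(Λ)` is a finitely generated torsion free subgroup of ℝ, so it has a
ℤ-basis `t₁, …, t_r`, and `M x = ∑ M_k(x) t_k` with `M_k : Λ →+ ℤ` vanishing on the radical.  So
`(M x)² ≤ r ∑ t_k² (M_k x)²`.
-/

namespace MP_14a437_ag

private theorem int_cs {Λ : Type*} [AddCommGroup Λ] (B : Λ →+ Λ →+ ℤ)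
    (hsymm : ∀ x y, B x y = B y x) (hpsd : ∀ x, 0 ≤ B x x) (x y : Λ) :
    (B x y) ^ 2 ≤ B x x * B y y := by
  have key : ∀ m n : ℤ, 0 ≤ m ^ 2 * B x x + 2 * m * n * B x y + n ^ 2 * B y y := by
    intro m n
    have h := hpsd (m • x + n • y)
    simp only [map_add, map_zsmul, AddMonoidHom.add_apply, smul_eq_mul,
      AddMonoidHom.smul_apply] at h
    rw [hsymm y x] at h
    linarith
  rcases (hpsd y).eq_or_lt with h0 | h0
  · have h1 : B x y = 0 := by
      by_contra hb
      have h2 := key 1 (-((B x x + 1) * B x y))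
      rw [← h0] at h2
      have h3 : 0 < B x y * B x y := mul_self_pos.2 hb
      have h4 := hpsd x
      nlinarith
    rw [h1, ← h0]
    simp
  · have h1 := key (B y y) (-B x y)
    have h2 : 0 ≤ B y y * (B x x * B y y - (B x y) ^ 2) := by
      have h3 : (B y y) ^ 2 * B x x + 2 * (B y y) * (-B x y) * B x y + (-B x y) ^ 2 * B y y =
          B y y * (B x x * B y y - (B x y) ^ 2) := by ring
      rw [← h3]
      exact h1
    have h3 := nonneg_of_mul_nonneg_right h2 h0
    linarith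

theorem psd_bound {Λ : Type*} [AddCommGroup Λ] [Module.Free ℤ Λ] [Module.Finite ℤ Λ]
    (B : Λ →+ Λ →+ ℤ) (hsymm : ∀ x y, B x y = B y x) (hpsd : ∀ x, 0 ≤ B x x) (M : Λ →+ ℝ)
    (hM : ∀ x, (∀ y, B x y = 0) → M x = 0) :
    ∃ K : ℝ, 0 ≤ K ∧ ∀ x, (M x) ^ 2 ≤ K * (B x x : ℝ) := by
  classical
  obtain ⟨ι, hfin, b, -⟩ : ∃ (ι : Type _) (_ : Fintype ι) (b : Module.Basis ι ℤ Λ), True :=
    ⟨Module.Free.ChooseBasisIndex ℤ Λ, inferInstance, Module.Free.chooseBasis ℤ Λ, trivial⟩
  obtain ⟨φ, hφ⟩ : ∃ φ : Λ →+ (ι → ℤ), ∀ x j, φ x j = B x (b j) :=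
    ⟨{ toFun := fun x j => B x (b j)
       map_zero' := by ext j; simp
       map_add' := fun x y => by ext j; simp }, fun x j => rfl⟩
  have hker : ∀ x, φ x = 0 → M x = 0 := by
    intro x hx
    apply hM
    intro y
    rw [← b.sum_repr y, map_sum]
    refine Finset.sum_eq_zero fun j _ => ?_
    rw [map_zsmul, ← hφ, hx]
    simp
  obtain ⟨h, hh⟩ := (Module.Baer.of_divisible ℝ).extension_property_addMonoidHom
    (QuotientAddGroup.kerLift φ) (QuotientAddGroup.kerLift_injective φ)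
    (QuotientAddGroup.lift φ.ker M (fun x hx => hker x hx))
  have hMx : ∀ x, M x = ∑ j, (B x (b j) : ℝ) * h (Pi.single j 1) := by
    intro x
    have h1 := DFunLike.congr_fun hh (QuotientAddGroup.mk x : Λ ⧸ φ.ker)
    have h2 : h (φ x) = M x := h1
    rw [← h2]
    have h3 : φ x = ∑ j, (B x (b j)) • (Pi.single j (1 : ℤ) : ι → ℤ) := by
      ext l
      rw [Finset.sum_apply]
      simp [Pi.single_apply, hφ]
    conv_lhs => rw [h3]
    rw [map_sum]
    refine Finset.sum_congr rfl fun j _ => ?_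
    rw [map_zsmul, zsmul_eq_mul]
  refine ⟨(Fintype.card ι : ℝ) * ∑ j, (B (b j) (b j) : ℝ) * (h (Pi.single j 1)) ^ 2, ?_,
    fun x => ?_⟩
  · refine mul_nonneg (Nat.cast_nonneg _) (Finset.sum_nonneg fun j _ => ?_)
    have : (0 : ℝ) ≤ (B (b j) (b j) : ℝ) := by exact_mod_cast hpsd (b j)
    positivity
  · rw [hMx]
    have h1 : (∑ j, (B x (b j) : ℝ) * h (Pi.single j 1)) ^ 2 ≤
        (Fintype.card ι : ℝ) * ∑ j, ((B x (b j) : ℝ) * h (Pi.single j 1)) ^ 2 := by
      have := sq_sum_le_card_mul_sum_sq (s := (Finset.univ : Finset ι))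
        (f := fun j => (B x (b j) : ℝ) * h (Pi.single j 1))
      rwa [Finset.card_univ] at this
    refine h1.trans ?_
    rw [mul_assoc]
    refine mul_le_mul_of_nonneg_left ?_ (Nat.cast_nonneg _)
    rw [Finset.sum_mul]
    refine Finset.sum_le_sum fun j _ => ?_
    have h2 : ((B x (b j) : ℝ)) ^ 2 ≤ (B x x : ℝ) * (B (b j) (b j) : ℝ) := by
      exact_mod_cast int_cs B hsymm hpsd x (b j)
    calc ((B x (b j) : ℝ) * h (Pi.single j 1)) ^ 2
        = (B x (b j) : ℝ) ^ 2 * (h (Pi.single j 1)) ^ 2 := by ring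
      _ ≤ ((B x x : ℝ) * (B (b j) (b j) : ℝ)) * (h (Pi.single j 1)) ^ 2 :=
          mul_le_mul_of_nonneg_right h2 (sq_nonneg _)
      _ = (B (b j) (b j) : ℝ) * h (Pi.single j 1) ^ 2 * (B x x : ℝ) := by ring

end MP_14a437_ag
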